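import Pool.Agent.Helper55.CF.Goals

set_option autoImplicit false

/-! Packet CHG for MP_b612a6_ag: invariance of `GoodOn` under local diffeomorphisms. -/

open MeasureTheory Set Filter Topology
open scoped ContDiff

namespace Pool.Agent.Helper65.CF

open CF55

section

variable {X : Type} [NormedAddCommGroup X] [NormedSpace ℝ X] [FiniteDimensional ℝ X]

theorem contDiff_det : ContDiff ℝ ∞ (fun A : X →L[ℝ] X => A.det) := by
  let b := Module.finBasis ℝ X
  have h : (fun A : X →L[ℝ] X => A.det) =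
      fun A => Matrix.det (Matrix.of fun i j => b.coord i (A (b j))) := by
    ext A
    rw [ContinuousLinearMap.det, ← LinearMap.det_toMatrix b]
    congr 1
    ext i j
    rw [LinearMap.toMatrix_apply]
    rfl
  rw [h]
  simp only [Matrix.det_apply]
  refine ContDiff.sum fun σ _ => ContDiff.const_smul _ (contDiff_prod fun i _ => ?_)
  exact ((LinearMap.toContinuousLinearMap (b.coord (σ i))).comp
    (ContinuousLinearMap.apply ℝ X (b i))).contDiff

omit [FiniteDimensional ℝ X] in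
theorem contDiff_of_tsupp (g : X → ℝ) (h : ∀ x ∈ tsupport g, ContDiffAt ℝ ∞ g x) :
    ContDiff ℝ ∞ g := by
  rw [contDiff_iff_contDiffAt]
  intro x
  by_cases hx : x ∈ tsupport g
  · exact h x hx
  · have h1 : g =ᶠ[𝓝 x] fun _ => 0 := by
      have := notMem_tsupport_iff_eventuallyEq.mp hx
      exact this
    exact contDiffAt_const.congr_of_eventuallyEq h1

end

section

variable {X : Type} [NormedAddCommGroup X] [NormedSpace ℝ X] [FiniteDimensional ℝ X]
  [MeasureSpace X] [BorelSpace X] [(volume : Measure X).IsAddHaarMeasure]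

theorem chgX (f ft : X → ℂ) (Θ : X → X) (L : X ≃L[ℝ] X) (hf : GoodOn f) (h0 : Θ 0 = 0)
    (hc : ∀ᶠ x in nhds 0, ContDiffAt ℝ ∞ Θ x) (hL : HasFDerivAt Θ (L : X →L[ℝ] X) 0)
    (he : ∀ᶠ x in nhds 0, ft x = f (Θ x)) : GoodOn ft := by
  obtain ⟨r, hr, hf⟩ := hf
  have hc0 : ContDiffAt ℝ ∞ Θ 0 := hc.self_of_nhds
  set Φ : OpenPartialHomeomorph X X := hc0.toOpenPartialHomeomorph Θ hL (by simp) with hΦ
  have hΦc : ∀ x, Φ x = Θ x := fun x => rfl
  have hsrc : ∀ᶠ x in nhds (0 : X), x ∈ Φ.source :=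
    Φ.open_source.mem_nhds (hc0.mem_toOpenPartialHomeomorph_source hL (by simp))
  have hdet : ∀ᶠ x in nhds (0 : X), (fderiv ℝ Θ x).det ≠ 0 := by
    have h1 : ContinuousAt (fun x => (fderiv ℝ Θ x).det) 0 := by
      have h2 : ContDiffAt ℝ 0 (fderiv ℝ Θ) 0 := hc0.fderiv_right (by simp)
      exact ContinuousAt.comp (g := fun A : X →L[ℝ] X => A.det)
        contDiff_det.continuous.continuousAt h2.continuousAt
    have h3 : (fderiv ℝ Θ 0).det ≠ 0 := by
      rw [hL.fderiv]
      exact (LinearEquiv.isUnit_det' L.toLinearEquiv).ne_zero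
    exact h1.eventually_ne h3
  have hball : ∀ᶠ x in nhds (0 : X), Θ x ∈ Metric.ball (0 : X) r := by
    have h1 : ContinuousAt Θ 0 := hc0.continuousAt
    apply h1.eventually_mem
    rw [h0]
    exact Metric.ball_mem_nhds _ hr
  obtain ⟨ρ, hρ, hB⟩ := Metric.eventually_nhds_iff_ball.mp
    (hsrc.and (hc.and (hdet.and (hball.and he))))
  refine ⟨ρ, hρ, fun ψt hψt hcs hsupp => ?_⟩
  set B := Metric.ball (0 : X) ρ with hBdef
  have hinj : Set.InjOn Θ B := by
    intro x hx y hy hxy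
    exact Φ.injOn (hB x hx).1 (hB y hy).1 hxy
  have hsub : B ⊆ Φ.source := fun x hx => (hB x hx).1
  have hopen : IsOpen (Θ '' B) := Φ.isOpen_image_of_subset_source Metric.isOpen_ball hsub
  have hinv : ∀ x ∈ B, Φ.symm (Θ x) = x := fun x hx => Φ.left_inv (hB x hx).1
  classical
  set ψ : X → ℝ := fun y => if y ∈ Θ '' B then
    ψt (Φ.symm y) / |(fderiv ℝ Θ (Φ.symm y)).det| else 0 with hψ
  have hψΘ : ∀ x ∈ B, ψ (Θ x) = ψt x / |(fderiv ℝ Θ x).det| := by
    intro x hx
    simp only [hψ]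
    rw [if_pos (Set.mem_image_of_mem _ hx), hinv x hx]
  have hK : IsCompact (Θ '' (tsupport ψt)) := by
    refine hcs.isCompact.image_of_continuousOn ?_
    intro x hx
    exact (hB x (hsupp hx)).2.1.continuousAt.continuousWithinAt
  have hKsub : Θ '' (tsupport ψt) ⊆ Θ '' B := Set.image_mono hsupp
  have hts : tsupport ψ ⊆ Θ '' (tsupport ψt) := by
    refine closure_minimal ?_ hK.isClosed
    intro y hy
    rw [Function.mem_support] at hy
    by_cases hyB : y ∈ Θ '' B
    · obtain ⟨x, hx, rfl⟩ := hyB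
      rw [hψΘ x hx] at hy
      refine ⟨x, subset_tsupport _ ?_, rfl⟩
      rw [Function.mem_support]
      intro h
      rw [h, zero_div] at hy
      exact hy rfl
    · simp only [hψ] at hy
      rw [if_neg hyB] at hy
      exact absurd rfl hy
  have hsm : ContDiff ℝ ∞ ψ := by
    refine contDiff_of_tsupp ψ fun y hy => ?_
    obtain ⟨x, hx, rfl⟩ := hKsub (hts hy)
    have hinvx := hinv x hx
    have h1 : ContDiffAt ℝ ∞ Φ.symm (Θ x) := by
      have htar : Θ x ∈ Φ.target := Φ.map_source (hB x hx).1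
      have hd : HasFDerivAt Θ (fderiv ℝ Θ x) x :=
        ((hB x hx).2.1.differentiableAt (by simp)).hasFDerivAt
      have hd2 : HasFDerivAt Φ (((fderiv ℝ Θ x).toContinuousLinearEquivOfDetNeZero
          (hB x hx).2.2.1 : X ≃L[ℝ] X) : X →L[ℝ] X) (Φ.symm (Θ x)) := by
        rw [hinvx, ContinuousLinearMap.coe_toContinuousLinearEquivOfDetNeZero]
        exact hd
      refine Φ.contDiffAt_symm htar hd2 ?_
      rw [hinvx]
      exact (hB x hx).2.1
    have h2 : ContDiffAt ℝ ∞ (fun y => (fderiv ℝ Θ (Φ.symm y)).det) (Θ x) := by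
      have h3 : ContDiffAt ℝ ∞ (fderiv ℝ Θ) (Φ.symm (Θ x)) := by
        rw [hinvx]
        exact (hB x hx).2.1.fderiv_right (by simp)
      exact contDiff_det.contDiffAt.comp _ (h3.comp _ h1)
    have h4 : ContDiffAt ℝ ∞ (fun y => ψt (Φ.symm y) / |(fderiv ℝ Θ (Φ.symm y)).det|) (Θ x) := by
      have hne : (fderiv ℝ Θ (Φ.symm (Θ x))).det ≠ 0 := by
        rw [hinvx]; exact (hB x hx).2.2.1
      refine ContDiffAt.div (hψt.contDiffAt.comp _ h1) ?_ (abs_ne_zero.mpr hne)
      exact (contDiffAt_abs hne).comp (Θ x) h2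
    refine h4.congr_of_eventuallyEq ?_
    filter_upwards [hopen.mem_nhds (Set.mem_image_of_mem _ hx)] with y hy
    simp only [hψ]
    rw [if_pos hy]
  have hcomp : HasCompactSupport ψ := hK.of_isClosed_subset (isClosed_tsupport _) hts
  have hsuppr : tsupport ψ ⊆ Metric.ball 0 r := by
    intro y hy
    obtain ⟨x, hx, rfl⟩ := hKsub (hts hy)
    exact (hB x hx).2.2.2.1
  have key : ∀ G : ℂ → ℝ, ∫ y, G (f y) * ψ y = ∫ x, G (ft x) * ψt x := by
    intro G
    have e1 : ∫ y, G (f y) * ψ y = ∫ y in Θ '' B, G (f y) * ψ y := by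
      symm
      refine setIntegral_eq_integral_of_forall_compl_eq_zero fun y hy => ?_
      simp only [hψ]
      rw [if_neg hy, mul_zero]
    have e2 : ∫ x, G (ft x) * ψt x = ∫ x in B, G (ft x) * ψt x := by
      symm
      refine setIntegral_eq_integral_of_forall_compl_eq_zero fun x hx => ?_
      have : ψt x = 0 := by
        by_contra h
        exact hx (hsupp (subset_tsupport _ h))
      rw [this, mul_zero]
    rw [e1, e2, integral_image_eq_integral_abs_det_fderiv_smul volume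
      Metric.isOpen_ball.measurableSet (f' := fun x => fderiv ℝ Θ x) (fun x hx =>
        ((hB x hx).2.1.differentiableAt (by simp)).hasFDerivAt.hasFDerivWithinAt) hinj]
    refine setIntegral_congr_fun Metric.isOpen_ball.measurableSet fun x hx => ?_
    have hne : |(fderiv ℝ Θ x).det| ≠ 0 := abs_ne_zero.mpr (hB x hx).2.2.1
    simp only [smul_eq_mul]
    rw [hψΘ x hx, (hB x hx).2.2.2.2]
    field_simp
  obtain ⟨C, k, hCk⟩ := hf ψ hsm hcomp hsuppr
  refine ⟨C, k, fun R hR => ?_⟩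
  have e1 := key (fun t => Real.exp (-(R * ‖t‖ ^ 2)))
  have e2 := key (fun t => (R * ‖t‖ ^ 2 - 1) * Real.exp (-(R * ‖t‖ ^ 2)))
  rw [← e1, ← e2]
  exact hCk R hR

end

theorem chg' : ∀ (f ft : E → ℂ) (Θ : E → E) (L : E ≃L[ℝ] E), GoodOn f → Θ 0 = 0 →
    (∀ᶠ x in nhds 0, ContDiffAt ℝ ∞ Θ x) → HasFDerivAt Θ (L : E →L[ℝ] E) 0 →
    (∀ᶠ x in nhds 0, ft x = f (Θ x)) → GoodOn ft := by
  intro f ft Θ L hf h0 hc hL he
  have i1 : (volume : Measure (ℂ × Z)).IsAddHaarMeasure :=
    Measure.prod.instIsAddHaarMeasure _ _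
  have i2 : (volume : Measure E).IsAddHaarMeasure :=
    Measure.prod.instIsAddHaarMeasure (volume : Measure ℂ) (volume : Measure (ℂ × Z))
  exact chgX f ft Θ L hf h0 hc hL he

end Pool.Agent.Helper65.CF
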